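import Pool.Agent.H83.CookLevin
import Pool.Agent.H83.Wrap
import Pool.Agent.H79.BdimRed

/-!
# Deciding the broadcast dimension is NP-hard
-/

set_option autoImplicit false

namespace Pool.Agent.Results.MP_307b22_lc.BroadcastDimNPHard

open Pool.Agent.H83 Pool.Agent.H79.Bdim

/-- Deciding whether the broadcast dimension of a graph is at most a given number is NP-hard. This
remains true for connected graphs whose number of vertices is `n = 3 d ^ 2 - 1`, whose metric
dimension is `d ^ 2` and whose adjacency dimension is `d ^ 2 + d - 1`: every language `L` in NP has a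
polynomial time reduction `F` all of whose values encode such a graph together with a number `k`. -/
theorem result : NPHard BroadcastDim ∧
    ∀ L : Set (List Bool), InNP L → ∃ F : List Bool → List Bool, PolyTimeFun F ∧
      ∀ x, ∃ (d n k : ℕ) (G : SimpleGraph (Fin n)), F x = encode n k G ∧ G.Connected ∧
        n + 1 = 3 * d ^ 2 ∧ mdim G = d ^ 2 ∧ adim G = d ^ 2 + d - 1 ∧
        (x ∈ L ↔ bdim G ≤ k) := by
  have main : ∀ L : Set (List Bool), InNP L → ∃ F : List Bool → List Bool, PolyTimeFun F ∧
      ∀ x, ∃ (d n k : ℕ) (G : SimpleGraph (Fin n)), F x = encode n k G ∧ G.Connected ∧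
        n + 1 = 3 * d ^ 2 ∧ mdim G = d ^ 2 ∧ adim G = d ^ 2 + d - 1 ∧
        (x ∈ L ↔ bdim G ≤ k) := by
    intro L hL
    obtain ⟨W, T, N, m, h⟩ := cook_levin hL
    refine ⟨fun x => Pool.Agent.H79.Bdim.redWord
      (Tableau.tab W (T.eval x.length) (N.eval x.length) (m.eval x.length) x), ?_, ?_⟩
    · have hlen : Poly (fun x : List Bool => x.length) := Poly.length Poly.id
      exact Poly.toTM2 (Pool.Agent.H79.Bdim.redWord_poly (Tableau.tab_poly W
        (Poly.polyEval T hlen) (Poly.polyEval N hlen) (Poly.polyEval m hlen) Poly.id))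
    · intro x
      rw [h x]
      obtain ⟨d, n, k, G, h1, h2, h3, h4, h5, h6⟩ := Pool.Agent.H79.Bdim.redWord_spec
        (Tableau.tab W (T.eval x.length) (N.eval x.length) (m.eval x.length) x)
        (by simp [Tableau.tab])
      exact ⟨d, n, k, G, h1, h3, h2, h4, h5, h6⟩
  refine ⟨?_, main⟩
  intro L hL
  obtain ⟨F, hF, h⟩ := main L hL
  refine ⟨F, hF, ?_⟩
  intro x
  obtain ⟨d, n, k, G, h1, h2, h3, h4, h5, h6⟩ := h x
  change x ∈ L ↔ F x ∈ BroadcastDim
  rw [h1, Pool.Agent.H79.Bdim.encode_mem_iff]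
  exact h6

end Pool.Agent.Results.MP_307b22_lc.BroadcastDimNPHard
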